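import Mathlib.Combinatorics.SimpleGraph.Diam
import Mathlib.Data.Setoid.Partition
import Mathlib.Order.Preorder.Finite
import Mathlib.Data.Set.Card

/-!
# Locating-dominating coalition partitions

Every finite connected graph with at least three vertices has an LDC-partition; so `K_1` and `K_2`
are the only connected graphs without one.

Proof.  By induction on `|D|` every LD-set `D` can be partitioned into nonempty sets, none of them
an LD-set, each of which has a coalition partner in the partition.  If `D` is the disjoint union of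
two LD-sets, use the induction hypothesis twice.  Otherwise let `M` be a minimal LD-set contained in
`D`, `v ∈ M` and `R = D \ M`; then `R` is not an LD-set.  If `R ∪ {v}` is not an LD-set take
`{M \ {v}, R ∪ {v}}`, and otherwise take `{M \ {v}, {v}, R}`.
-/

set_option autoImplicit false

namespace Pool.Agent.Results.MP_c852bb_co.EveryConnectedGraph

/-- `D` is a locating-dominating set (LD-set) of `G`: every vertex outside `D` has a neighbour in
`D`, and distinct vertices outside `D` have distinct neighbourhoods in `D`. -/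
def IsLD {V : Type} (G : SimpleGraph V) (D : Set V) : Prop :=
  (∀ v, v ∉ D → ∃ w ∈ D, G.Adj v w) ∧
    ∀ u v, u ∉ D → v ∉ D → u ≠ v → G.neighborSet u ∩ D ≠ G.neighborSet v ∩ D

/-- The disjoint sets `X`, `Y` form an LD-coalition: neither is an LD-set, but their union is. -/
def IsCoalition {V : Type} (G : SimpleGraph V) (X Y : Set V) : Prop :=
  Disjoint X Y ∧ ¬ IsLD G X ∧ ¬ IsLD G Y ∧ IsLD G (X ∪ Y)

/-- An LDC-partition of `G`: a partition of the vertex set into nonempty sets, none of which is an
LD-set, each of which forms an LD-coalition with another class. -/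
def IsLDCPartition {V : Type} (G : SimpleGraph V) (P : Set (Set V)) : Prop :=
  Setoid.IsPartition P ∧ ∀ X ∈ P, ¬ IsLD G X ∧ ∃ Y ∈ P, Y ≠ X ∧ IsCoalition G X Y

variable {V : Type} {G : SimpleGraph V}

theorem IsLD.mono {D E : Set V} (h : IsLD G D) (hDE : D ⊆ E) : IsLD G E := by
  refine ⟨fun v hv => ?_, fun u v hu hv huv heq => ?_⟩
  · obtain ⟨w, hw, hadj⟩ := h.1 v (fun h' => hv (hDE h'))
    exact ⟨w, hDE hw, hadj⟩
  · refine h.2 u v (fun h' => hu (hDE h')) (fun h' => hv (hDE h')) huv ?_
    have h1 : (G.neighborSet u ∩ E) ∩ D = (G.neighborSet v ∩ E) ∩ D := by rw [heq]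
    rwa [Set.inter_assoc, Set.inter_assoc, Set.inter_eq_self_of_subset_right hDE] at h1

/-- `D` can be split into coalition classes. -/
def Splits (G : SimpleGraph V) (D : Set V) : Prop :=
  ∃ P : Set (Set V), (∀ X ∈ P, X.Nonempty) ∧ P.PairwiseDisjoint id ∧ ⋃₀ P = D ∧
    ∀ X ∈ P, ¬ IsLD G X ∧ ∃ Y ∈ P, IsCoalition G X Y

theorem splits_union {A B : Set V} (hA : Splits G A) (hB : Splits G B) (hAB : Disjoint A B) :
    Splits G (A ∪ B) := by
  obtain ⟨P, h1, h2, h3, h4⟩ := hA
  obtain ⟨Q, k1, k2, k3, k4⟩ := hB
  refine ⟨P ∪ Q, ?_, ?_, ?_, ?_⟩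
  · rintro X (hX | hX)
    · exact h1 X hX
    · exact k1 X hX
  · rintro X (hX | hX) Y (hY | hY) hXY
    · exact h2 hX hY hXY
    · refine Disjoint.mono ?_ ?_ hAB
      · rw [← h3]; exact Set.subset_sUnion_of_mem hX
      · rw [← k3]; exact Set.subset_sUnion_of_mem hY
    · refine Disjoint.mono ?_ ?_ hAB.symm
      · rw [← k3]; exact Set.subset_sUnion_of_mem hX
      · rw [← h3]; exact Set.subset_sUnion_of_mem hY
    · exact k2 hX hY hXY
  · rw [Set.sUnion_union, h3, k3]
  · rintro X (hX | hX)
    · obtain ⟨a, Y, hY, b⟩ := h4 X hX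
      exact ⟨a, Y, Or.inl hY, b⟩
    · obtain ⟨a, Y, hY, b⟩ := k4 X hX
      exact ⟨a, Y, Or.inr hY, b⟩

theorem splits_two {A B : Set V} (hA : A.Nonempty) (hB : B.Nonempty) (h : IsCoalition G A B) :
    Splits G (A ∪ B) := by
  refine ⟨{A, B}, ?_, ?_, ?_, ?_⟩
  · rintro X (rfl | rfl)
    · exact hA
    · exact hB
  · rintro X (rfl | rfl) Y (rfl | rfl) hXY
    · exact absurd rfl hXY
    · exact h.1
    · exact h.1.symm
    · exact absurd rfl hXY
  · exact Set.sUnion_pair A B
  · rintro X (rfl | rfl)
    · exact ⟨h.2.1, B, Or.inr rfl, h⟩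
    · exact ⟨h.2.2.1, A, Or.inl rfl, h.1.symm, h.2.2.1, h.2.1, by rw [Set.union_comm]; exact h.2.2.2⟩

theorem splits_three {A B C : Set V} (hA : A.Nonempty) (hB : B.Nonempty) (hC : C.Nonempty)
    (h : IsCoalition G A B) (h' : IsCoalition G B C) (hAC : Disjoint A C) :
    Splits G (A ∪ (B ∪ C)) := by
  refine ⟨{A, B, C}, ?_, ?_, ?_, ?_⟩
  · rintro X (rfl | rfl | rfl)
    · exact hA
    · exact hB
    · exact hC
  · rintro X (rfl | rfl | rfl) Y (rfl | rfl | rfl) hXY
    · exact absurd rfl hXY
    · exact h.1
    · exact hAC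
    · exact h.1.symm
    · exact absurd rfl hXY
    · exact h'.1
    · exact hAC.symm
    · exact h'.1.symm
    · exact absurd rfl hXY
  · rw [Set.sUnion_insert, Set.sUnion_pair]
  · rintro X (rfl | rfl | rfl)
    · exact ⟨h.2.1, B, Or.inr (Or.inl rfl), h⟩
    · exact ⟨h.2.2.1, C, Or.inr (Or.inr rfl), h'⟩
    · exact ⟨h'.2.2.1, B, Or.inr (Or.inl rfl), h'.1.symm, h'.2.2.1, h'.2.1,
        by rw [Set.union_comm]; exact h'.2.2.2⟩

/-- If the empty set and the one-element sets are not LD-sets, every LD-set splits. -/
theorem splits_of_isLD [Finite V] (hsing : ∀ v, ¬ IsLD G {v}) (hemp : ¬ IsLD G ∅) :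
    ∀ (n : ℕ) (D : Set V), D.ncard ≤ n → IsLD G D → Splits G D := by
  intro n
  induction n with
  | zero =>
    intro D hn hD
    have : D = ∅ := by
      rw [← Set.ncard_eq_zero (Set.toFinite D)]
      omega
    rw [this] at hD
    exact absurd hD hemp
  | succ n ih =>
    intro D hn hD
    by_cases hdiv : ∃ A B : Set V, Disjoint A B ∧ A ∪ B = D ∧ IsLD G A ∧ IsLD G B
    · obtain ⟨A, B, hAB, hU, hA, hB⟩ := hdiv
      have hAne : A.Nonempty := by
        rw [Set.nonempty_iff_ne_empty]; rintro rfl; exact hemp hA
      have hBne : B.Nonempty := by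
        rw [Set.nonempty_iff_ne_empty]; rintro rfl; exact hemp hB
      have hc : A.ncard + B.ncard = D.ncard := by
        rw [← hU, Set.ncard_union_eq hAB (Set.toFinite _) (Set.toFinite _)]
      have h1 : 0 < A.ncard := (Set.ncard_pos (Set.toFinite _)).2 hAne
      have h2 : 0 < B.ncard := (Set.ncard_pos (Set.toFinite _)).2 hBne
      rw [← hU]
      exact splits_union (ih A (by omega) hA) (ih B (by omega) hB) hAB
    · obtain ⟨M, hMD, hM⟩ := exists_minimal_le_of_wellFoundedLT (IsLD G) D hD
      have hMD : M ⊆ D := hMD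
      have hMne : M.Nonempty := by
        rw [Set.nonempty_iff_ne_empty]; rintro rfl; exact hemp hM.1
      obtain ⟨v, hv⟩ := hMne
      -- the remainder
      have hR : ¬ IsLD G (D \ M) := by
        intro hR
        exact hdiv ⟨M, D \ M, Set.disjoint_sdiff_right, Set.union_sdiff_cancel hMD, hM.1, hR⟩
      have hMv : ¬ IsLD G (M \ {v}) := by
        intro h
        have := hM.2 h (Set.sdiff_subset : M \ {v} ⊆ M)
        exact (this hv).2 rfl
      have hMvne : (M \ {v}).Nonempty := by
        rw [Set.nonempty_iff_ne_empty]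
        intro h
        apply hsing v
        have : M ⊆ {v} := Set.sdiff_eq_empty.1 h
        exact hM.1.mono this
      have hvD : v ∈ D := hMD hv
      by_cases hRv : IsLD G ((D \ M) ∪ {v})
      · have hRne : (D \ M).Nonempty := by
          rw [Set.nonempty_iff_ne_empty]
          intro h
          rw [h, Set.empty_union] at hRv
          exact hsing v hRv
        have hsp := splits_three (G := G) (A := M \ {v}) (B := {v}) (C := D \ M) hMvne
          (Set.singleton_nonempty v) hRne
          ⟨Set.disjoint_sdiff_left, hMv, hsing v, by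
            rw [Set.sdiff_union_of_subset (Set.singleton_subset_iff.2 hv)]; exact hM.1⟩
          ⟨by
            rw [Set.disjoint_singleton_left]
            exact fun h => h.2 hv, hsing v, hR, by rw [Set.union_comm]; exact hRv⟩
          (Disjoint.mono_left Set.sdiff_subset Set.disjoint_sdiff_right)
        have hU : M \ {v} ∪ ({v} ∪ D \ M) = D := by
          rw [← Set.union_assoc, Set.sdiff_union_of_subset (Set.singleton_subset_iff.2 hv),
            Set.union_sdiff_cancel hMD]
        rwa [hU] at hsp
      · have hU : M \ {v} ∪ ((D \ M) ∪ {v}) = D := by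
          rw [Set.union_comm (D \ M), ← Set.union_assoc,
            Set.sdiff_union_of_subset (Set.singleton_subset_iff.2 hv), Set.union_sdiff_cancel hMD]
        have hsp := splits_two (G := G) (A := M \ {v}) (B := (D \ M) ∪ {v}) hMvne
          ⟨v, Or.inr rfl⟩
          ⟨by
            rw [Set.disjoint_left]
            rintro x hx (h | h)
            · exact h.2 hx.1
            · exact hx.2 h, hMv, hRv, by rw [hU]; exact hD⟩
        rwa [hU] at hsp

/-- A finite connected graph has an LDC-partition if and only if it has at least three vertices.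
In particular every connected graph of diameter `2` has an LDC-partition. -/
theorem result (V : Type) [Finite V] (G : SimpleGraph V) (hG : G.Connected) :
    ((∃ P : Set (Set V), IsLDCPartition G P) ↔ 3 ≤ Nat.card V) ∧
    (G.diam = 2 → ∃ P : Set (Set V), IsLDCPartition G P) := by
  classical
  have hne : Nonempty V := hG.nonempty
  have main : 3 ≤ Nat.card V → ∃ P : Set (Set V), IsLDCPartition G P := by
    intro h3
    have hsing : ∀ v, ¬ IsLD G {v} := by
      intro v hv
      have hc : 1 < ((Set.univ : Set V) \ {v}).ncard := by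
        rw [Set.ncard_sdiff_singleton_of_mem (Set.mem_univ v), Set.ncard_univ]
        omega
      obtain ⟨a, ha, b, hb, hab⟩ := (Set.one_lt_ncard (Set.toFinite _)).1 hc
      have hadj : ∀ x, x ∉ ({v} : Set V) → G.neighborSet x ∩ {v} = {v} := by
        intro x hx
        obtain ⟨w, hw, hadj⟩ := hv.1 x hx
        rw [Set.mem_singleton_iff] at hw
        subst hw
        apply Set.inter_eq_self_of_subset_right
        rw [Set.singleton_subset_iff]
        exact hadj
      exact hv.2 a b ha.2 hb.2 hab (by rw [hadj a ha.2, hadj b hb.2])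
    have hemp : ¬ IsLD G ∅ := by
      intro h
      obtain ⟨v⟩ := hne
      obtain ⟨w, hw, -⟩ := h.1 v (by simp)
      exact hw
    have huniv : IsLD G Set.univ :=
      ⟨fun v hv => absurd (Set.mem_univ v) hv, fun u v hu => absurd (Set.mem_univ u) hu⟩
    obtain ⟨P, h1, h2, h3, h4⟩ := splits_of_isLD hsing hemp _ Set.univ le_rfl huniv
    refine ⟨P, ⟨?_, ?_⟩, ?_⟩
    · intro h
      exact Set.not_nonempty_empty (h1 _ h)
    · intro a
      have ha : a ∈ ⋃₀ P := by rw [h3]; exact Set.mem_univ a
      obtain ⟨X, hX, haX⟩ := ha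
      refine ⟨X, ⟨hX, haX⟩, ?_⟩
      rintro Y ⟨hY, haY⟩
      by_contra hXY
      exact Set.disjoint_left.1 (h2 hY hX hXY) haY haX
    · intro X hX
      obtain ⟨a, Y, hY, b⟩ := h4 X hX
      refine ⟨a, Y, hY, ?_, b⟩
      rintro rfl
      obtain ⟨x, hx⟩ := h1 Y hY
      exact Set.disjoint_left.1 b.1 hx hx
  refine ⟨⟨?_, main⟩, ?_⟩
  · rintro ⟨P, hP, hP2⟩
    by_contra hlt
    push Not at hlt
    -- every nonempty set is an LD-set
    have hall : ∀ D : Set V, D.Nonempty → IsLD G D := by
      intro D ⟨w, hw⟩
      refine ⟨fun v hv => ⟨w, hw, ?_⟩, fun u v hu hv huv => ?_⟩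
      · obtain ⟨p⟩ := hG.preconnected v w
        cases p with
        | nil => exact absurd hw hv
        | cons h q =>
          rename_i y
          by_cases hy : y = w
          · rwa [← hy]
          · exfalso
            have h3 : ({v, y, w} : Set V).ncard = 3 := by
              rw [Set.ncard_eq_three]
              exact ⟨v, y, w, h.ne, fun h' => hv (h' ▸ hw), hy, rfl⟩
            have := Set.ncard_le_ncard (Set.subset_univ ({v, y, w} : Set V)) (Set.toFinite _)
            rw [Set.ncard_univ] at this
            omega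
      · exfalso
        have h3 : ({u, v, w} : Set V).ncard = 3 := by
          rw [Set.ncard_eq_three]
          exact ⟨u, v, w, huv, fun h' => hu (h' ▸ hw), fun h' => hv (h' ▸ hw), rfl⟩
        have := Set.ncard_le_ncard (Set.subset_univ ({u, v, w} : Set V)) (Set.toFinite _)
        rw [Set.ncard_univ] at this
        omega
    obtain ⟨v⟩ := hne
    obtain ⟨X, ⟨hX, hvX⟩, -⟩ := hP.2 v
    exact (hP2 X hX).1 (hall X ⟨v, hvX⟩)
  · intro hd
    apply main
    by_contra hlt
    push Not at hlt
    obtain ⟨u, v, huv⟩ := G.exists_dist_eq_diam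
    rw [hd] at huv
    obtain ⟨p, hp⟩ := hG.exists_walk_length_eq_dist u v
    rw [huv] at hp
    cases p with
    | nil => simp at hp
    | cons h q =>
      cases q with
      | nil => simp at hp
      | cons h' q' =>
        rename_i y z
        have hq' : q'.length = 0 := by
          simp only [SimpleGraph.Walk.length_cons] at hp
          omega
        have hz : z = v := SimpleGraph.Walk.eq_of_length_eq_zero hq'
        subst hz
        have huz : u ≠ z := by
          rintro rfl
          rw [SimpleGraph.dist_self] at huv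
          omega
        have h3 : ({u, y, z} : Set V).ncard = 3 := by
          rw [Set.ncard_eq_three]
          exact ⟨u, y, z, h.ne, huz, h'.ne, rfl⟩
        have := Set.ncard_le_ncard (Set.subset_univ ({u, y, z} : Set V)) (Set.toFinite _)
        rw [Set.ncard_univ] at this
        omega

end Pool.Agent.Results.MP_c852bb_co.EveryConnectedGraph
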